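import Pool.Agent.H436.DT.Main

/-!
# Points over differential fields and K-analytically special varieties

Let `K` be an algebraically closed field of characteristic zero. The problem asks for the tempered
fundamental groups of the smooth projective varieties `X` over a complete non-Archimedean field `K`
for which there is an analytic map `f : 𝒰 → X^an` with dense image, `𝒰` a big open subset of `G^an`,
`G` a connected algebraic group. The homogeneous coordinates of `f` are elements of the field `E` of
the meromorphic functions on `𝒰`, on which the invariant derivations `D_1, …, D_g` of `G` act, with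
joint constants `K`.

We consider arbitrary extension fields `E` of `K` with derivations `D_1, …, D_g` over `K` (which need
not commute), a subfield `F` of `E`, for instance `K(G)`, or the field of the rational functions on
`G × A` if the abelian variety `A` is an analytic quotient of `G`, which is closed under the
derivations and contains their joint constants, and the points `h` over `E` which are given by
iterated linear differential equations over `F`: the homogeneous coordinates lie in the smallest
subset of `E` which contains `F` and is closed under sums, products and solutions `y` of linear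
systems `D_i y = A_i y`, `i = 1, …, g`, with coefficients in the set. For instance all theta functions
of `A`, their inverses, the quasi-periodic functions, exponentials and primitives of such functions
(as far as they are meromorphic on `𝒰`) have this form over `F = K(G × A)`.

Let `X` be the locus of `h` over `K`, let the polynomials `Φ` give a rational map `φ` on `X`, and let
`Z` be the closure of its image.

(1) The point `φ(h)` is algebraic over `F`, or `Z` is covered by rational curves of bounded degree.

(2) Several variables separately: let the `D_i` commute, `D_i t_j = δ_ij`, with joint constants `K`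
(for instance a transcendence basis `t` of `K(G)`, and `D_i = ∂/∂t_i`). If, for each `i`, `h` is given
by iterated linear differential equations with respect to the one derivation `D_i` over the algebraic
closure of the field generated by `t_i` over the constants of `D_i`, then `φ(h)` is algebraic over
`K(t_1, …, t_g)`, or `Z` is covered by rational curves of bounded degree.

(3) If `h` is given by iterated linear differential equations over subfields `F_l` and by linear
difference equations with respect to endomorphisms `σ_m` (in the sense of the library result
`DifferenceFieldImages`), and only the elements of `K` are algebraic over all `F_l` and fixed by powers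
of all `σ_m`, then `φ(h)` is constant, or `Z` is covered by rational curves of bounded degree.

So if `X` is K-analytically special by such a map `f`, then the base `R` of the maximal rationally
connected fibration of `X`, which is not covered by rational curves, is dominated by a variety with
function field in the algebraic closure of `F`, and `f` followed by `X ⇢ R` is algebraic over `F`.

The proof. For several derivations we adjoin generic velocities `u_0, u_1, …` to `E`, with
`D = ∑ u_0^i D_i` on `E` and `D u_k = u_(k+1)`; the constants of this derivation of `E(u)` are the
joint constants of the `D_i`. So one derivation suffices. The coordinates, the coefficients of finitely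
many forms and the equations lie in a countable differential subfield `E_0`, which embeds in `ℂ`, and
the Taylor series give an embedding of `E_0` in the field of Laurent series over `ℂ`, in which there
are fundamental matrices of all systems. An element transcendental over `F` remains transcendental
over the field generated by `ℂ` and the image of `F ∩ E_0` (linear disjointness over the constants).
The theorem of the library on towers of linear systems over the complex numbers gives a rational curve
over an extension field through the image point, which specializes to rational curves of bounded degree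
over `K` through all points of `Z`. For (2), elements which are separately algebraic are algebraic.
-/

set_option autoImplicit false

namespace Pool.Agent.Results.MP_e120ef_ag.DifferentialFieldImages

open MvPolynomial
open Pool.Agent.H436.DT (IterL DField lineBase)
open Pool.Agent.Q309.OFF (ptIdeal)
open Pool.Agent.Results.MP_e120ef_ag.DifferenceFieldImages (DiffPoint ConstIm CoveredIm)

variable {K E : Type} [Field K] [Field E] [Algebra K E] {n s : ℕ}

/-- The point `φ (h)` is algebraic over `F`: the quotients of its homogeneous coordinates are. -/
def AlgIm (F : IntermediateField K E) (h : Fin (n + 1) → E)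
    (Φ : Fin (s + 1) → MvPolynomial (Fin (n + 1)) K) : Prop :=
  ∀ u v, IsAlgebraic F (aeval h (Φ u) / aeval h (Φ v))

/-- Commuting derivations with joint constants `K`, and elements `t_j` with `D_i t_j = δ_ij`. -/
structure Coordinates {g : ℕ} (D : Fin g → Derivation K E E) (t : Fin g → E) : Prop where
  comm : ∀ i j x, D i (D j x) = D j (D i x)
  dual : ∀ i j, D i (t j) = if i = j then 1 else 0
  const : ∀ x, (∀ i, D i x = 0) → x ∈ (algebraMap K E).range

/-- A finite family of derivations with a subfield. -/
structure Base (K E : Type) [Field K] [Field E] [Algebra K E] where
  g : ℕ
  D : Fin g → Derivation K E E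
  F : IntermediateField K E

/-- `h` is given by iterated linear differential equations over the subfield, which is closed under
the derivations and contains their joint constants. -/
def Base.Given (b : Base K E) (h : Fin (n + 1) → E) : Prop :=
  DField b.D b.F ∧ ∀ j, IterL b.D b.F (h j)

theorem result (K E : Type) [Field K] [CharZero K] [IsAlgClosed K] [Field E] [Algebra K E]
    {n s : ℕ} (h : Fin (n + 1) → E) (Φ : Fin (s + 1) → MvPolynomial (Fin (n + 1)) K)
    (hΦ : ∃ u, Φ u ∉ ptIdeal K h) :
    -- (1) several derivations
    (∀ b : Base K E, b.Given h → AlgIm b.F h Φ ∨ CoveredIm h Φ) ∧
    -- (2) several variables separately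
    (∀ (g : ℕ) (D : Fin g → Derivation K E E) (t : Fin g → E), Coordinates D t →
      (∀ i j, IterL (fun _ : Fin 1 => D i) (lineBase (D i) (t i)) (h j)) →
        AlgIm (IntermediateField.adjoin K (Set.range t)) h Φ ∨ CoveredIm h Φ) ∧
    -- (3) differential and difference equations
    ∀ (Λ M : Type) (b : Λ → Base K E) (σ : M → E →ₐ[K] E), (∀ l, (b l).Given h) →
      (∀ m, ∃ (t : E) (ρ : Polynomial K), DiffPoint (σ m) t ρ h) →
      (∀ f : E, (∀ l, IsAlgebraic (b l).F f) → (∀ m, ∃ k : ℕ, 1 ≤ k ∧ (σ m)^[k] f = f) →
        f ∈ (algebraMap K E).range) → ConstIm h Φ ∨ CoveredIm h Φ := by
  classical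
  have part1 : ∀ b : Base K E, b.Given h → AlgIm b.F h Φ ∨ CoveredIm h Φ := fun b hb =>
    Pool.Agent.H436.DT.image_alt hb.1 hb.2 Φ
  refine ⟨part1, fun g D t hD hh => ?_, fun Λ M b σ hb hσ hno => ?_⟩
  · by_cases hcov : CoveredIm h Φ
    · exact Or.inr hcov
    left
    intro u v
    refine Pool.Agent.H436.DT.SA.sep_alg D hD.comm hD.const t hD.dual fun i => ?_
    have hti : D i (t i) = 1 := by rw [hD.dual, if_pos rfl]
    have h1 := (part1 ⟨1, fun _ => D i, lineBase (D i) (t i)⟩
      ⟨Pool.Agent.H436.DT.line_field hti, fun j => hh i j⟩).resolve_right hcov
    exact Pool.Agent.H436.DT.alg_lineBase (h1 u v)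
  · by_cases hcov : CoveredIm h Φ
    · exact Or.inr hcov
    left
    obtain ⟨u0, hu0⟩ := hΦ
    have hz0 : aeval h (Φ u0) ≠ 0 := fun h0 => hu0 h0
    have hdiff : ∀ m, ∃ g : ℕ, 1 ≤ g ∧ Pool.Agent.Q309.OFF.Par (fun u => aeval h (Φ u))
        fun u => (σ m)^[g] (aeval h (Φ u)) := by
      intro m
      obtain ⟨t, ρ, hd⟩ := hσ m
      exact (Pool.Agent.Q309.OFF.diff_image hd.1 hd.2.1 hd.2.2 ⟨u0, hu0⟩).resolve_right hcov
    have hf : ∀ u, aeval h (Φ u) / aeval h (Φ u0) ∈ (algebraMap K E).range := by
      intro u
      refine hno _ (fun l => ((part1 (b l) (hb l)).resolve_right hcov) u u0) fun m => ?_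
      obtain ⟨g, hg, hpar⟩ := hdiff m
      refine ⟨g, hg, ?_⟩
      have h2 : (aeval h (Φ u) / aeval h (Φ u0)) * aeval h (Φ u0) = aeval h (Φ u) :=
        div_mul_cancel₀ _ hz0
      have h3 := congrArg ((σ m)^[g] : E → E) h2
      rw [iterate_map_mul] at h3
      have h4 : ((σ m)^[g] : E → E) (aeval h (Φ u0)) ≠ 0 := by
        intro h0
        apply hz0
        apply ((σ m).toRingHom.injective.iterate g)
        exact h0.trans (iterate_map_zero (σ m) g).symm
      have h5 : aeval h (Φ u) * ((σ m)^[g] : E → E) (aeval h (Φ u0)) =
          aeval h (Φ u0) * ((σ m)^[g] : E → E) (aeval h (Φ u)) := hpar u u0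
      rw [eq_div_iff hz0]
      apply mul_right_cancel₀ h4
      rw [h5, ← h3]
      ring
    choose c hc using hf
    have hcz : ∀ u, aeval h (Φ u) = algebraMap K E (c u) * aeval h (Φ u0) := by
      intro u
      rw [hc, div_mul_cancel₀ _ hz0]
    refine ⟨c, fun h0 => ?_, fun u v => ?_⟩
    · have h2 := hcz u0
      rw [h0, Pi.zero_apply, map_zero, zero_mul] at h2
      exact hz0 h2
    · change aeval h (C (c u) * Φ v - C (c v) * Φ u) = 0
      rw [map_sub, map_mul, map_mul, aeval_C, aeval_C, hcz u, hcz v]
      ring

end Pool.Agent.Results.MP_e120ef_ag.DifferentialFieldImages
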